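import Pool.Agent.Y735.V.Surf

/-!
The derivations attached to a generic form, for all finite extensions at once, with uniform bounds.
-/

set_option autoImplicit false

open MvPolynomial FF Pool.Agent.W603.LV Pool.Agent.W603.PV Pool.Agent.TH145.GH
  Pool.Agent.TH145.MG Pool.Agent.W602.GT

namespace Pool.Agent.Helper449_QS

open Pool.Agent.TH812.GV Pool.Agent.TH812.GV2 Pool.Agent.Y735.V

/-- The derivations of all finite extensions, with uniform bounds. -/
theorem exists_dataU {k0 k F0 F : Type} [Field k0] [Field k] [Field F0] [Field F] [IsAlgClosed k]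
    [CharZero k] [Algebra k0 k] [Algebra k F] [Algebra k0 F] [IsScalarTower k0 k F]
    [Algebra k0 F0] [Algebra F0 F] [IsScalarTower k0 F0 F] [IsFF k F]
    (hfg : ∃ S : Finset F0, IntermediateField.adjoin k0 (S : Set F0) = ⊤) {n d : ℕ}
    (hd : 0 < d) {H : MvPolynomial (Fin (n + 1)) F} (hH : H.IsHomogeneous d)
    (hgen : AlgebraicIndependent F0 fun I : {I : Fin (n + 1) →₀ ℕ // I.degree = d} =>
      H.coeff I.1) :
    ∃ (D : (Fin (n + 1) →₀ ℕ) → Derivation ℤ F F) (C N : ℕ)
      (R : Fin (n + 1) → Fin (n + 1) → MvPolynomial (Fin (n + 1)) F),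
      (∀ l, X l ^ N = ∑ i, R l i * pderiv i H) ∧
      ∀ (L : Type) [Field L] [Algebra k L] [Algebra F L]
        [IsScalarTower k F L] [FiniteDimensional F L] [IsFF k L],
        ∃ (D' : (Fin (n + 1) →₀ ℕ) → Derivation ℤ L L) (e g : Place k L → ℤ),
          (∀ I a, D' I (algebraMap F L a) = algebraMap F L (D I a)) ∧
          Data k (map (algebraMap F L) H) d D' e g ∧
          (∀ I J a, D' I (D' J a) = D' J (D' I a)) ∧
          Pool.Agent.Y735.CC n e g ≤ (n + 1) * canDeg k L + C * Module.finrank F L ∧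
          ∑ᶠ P, g P ≤ C * Module.finrank F L := by
  classical
  have hF : CharZero F := charZero_of_injective_algebraMap (algebraMap k F).injective
  have hdeg := finite_deg n d
  have := Fintype.ofFinite {I : Fin (n + 1) →₀ ℕ // I.degree = d}
  obtain ⟨N, R, hR⟩ := exists_null' hd hH hgen
  obtain ⟨Db, hDbg, -, hDb, hDbc⟩ := exists_duals3 (k0 := k0) (k := k) (F0 := F0) (F := F) hfg
    (fun I : {I : Fin (n + 1) →₀ ℕ // I.degree = d} => H.coeff I.1) hgen
  obtain ⟨D, hD⟩ : ∃ D : (Fin (n + 1) →₀ ℕ) → Derivation ℤ F F, ∀ I, D I =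
      if h : I.degree = d then Db ⟨I, h⟩ else 0 := ⟨_, fun _ => rfl⟩
  have hDd : ∀ I (h : I.degree = d), D I = Db ⟨I, h⟩ := fun I h => by rw [hD, dif_pos h]
  have hD0 : ∀ I : Fin (n + 1) →₀ ℕ, I.degree ≠ d → D I = 0 := fun I h => by rw [hD, dif_neg h]
  have hgood : ∀ I, GoodS k (D I) := by
    intro I
    by_cases h : I.degree = d
    · rw [hDd I h]; exact hDbg _
    · rw [hD0 I h]; exact GoodS.zero
  have hcom : ∀ I J a, D I (D J a) = D J (D I a) := by
    intro I J a
    by_cases hI : I.degree = d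
    · by_cases hJ : J.degree = d
      · rw [hDd I hI, hDd J hJ]; exact hDbc _ _ _
      · rw [hD0 J hJ, Derivation.zero_apply, Derivation.zero_apply, map_zero]
    · rw [hD0 I hI, Derivation.zero_apply, Derivation.zero_apply, map_zero]
  choose q hq0 hqf hq using hgood
  have hfinI : {I : Fin (n + 1) →₀ ℕ | I.degree = d}.Finite :=
    (Finsupp.finite_of_degree_le d).subset fun I hI => le_of_eq hI
  obtain ⟨Q, hQ⟩ : ∃ Q : Place k F → ℤ, ∀ v, Q v = ∑ I ∈ hfinI.toFinset, q I v :=
    ⟨_, fun _ => rfl⟩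
  have hQ0 : ∀ v, 0 ≤ Q v := fun v => by
    rw [hQ]
    exact Finset.sum_nonneg fun I _ => hq0 I v
  have hQf : {v | Q v ≠ 0}.Finite := by
    have h1 : (⋃ I ∈ hfinI.toFinset, {v | q I v ≠ 0}).Finite :=
      hfinI.toFinset.finite_toSet.biUnion fun I _ => hqf I
    refine h1.subset fun v hv => ?_
    by_contra hcon
    simp only [Set.mem_iUnion, not_exists, Set.mem_ofPred_eq, not_not] at hcon
    apply hv
    rw [hQ]
    exact Finset.sum_eq_zero fun I hI => hcon I hI
  have hQle : ∀ (I : Fin (n + 1) →₀ ℕ), I.degree = d → ∀ v, q I v ≤ Q v := by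
    intro I hI v
    rw [hQ]
    exact Finset.single_le_sum (f := fun I => q I v) (fun I _ => hq0 I v)
      (by rw [Set.Finite.mem_toFinset]; exact hI)
  obtain ⟨C1, hC1⟩ := sum_loss (k := k) hQ0 hQf
  -- the poles of the coefficients
  obtain ⟨G, hG0, hGf, hG⟩ := exists_poles (κ := k)
    ((H.support.image fun u => H.coeff u) ∪ Finset.univ.biUnion fun p : Fin (n + 1) × Fin (n + 1)
      => (R p.1 p.2).support.image fun u => (R p.1 p.2).coeff u)
  obtain ⟨C3, hC3⟩ := sum_under (k := k) hG0 hGf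
  refine ⟨D, (n + 1) * C1 + (n + 2) * C3, N, R, hR, ?_⟩
  intro L _ _ _ _ _ hL
  have hLz : CharZero L := charZero_of_injective_algebraMap (algebraMap k L).injective
  choose D' hD' hDl using fun I => hq I L
  obtain ⟨HL, hHL⟩ : ∃ HL, HL = map (algebraMap F L) H := ⟨_, rfl⟩
  obtain ⟨hqfin, hqsum⟩ := hC1 L
  obtain ⟨hufin, husum⟩ := hC3 L
  obtain ⟨el, hel⟩ : ∃ el : Place k L → ℤ, ∀ P, el P =
    ((ram F P : ℤ) - 1) + ram F P * Q (under F P) := ⟨_, fun _ => rfl⟩
  obtain ⟨gl, hgl⟩ : ∃ gl : Place k L → ℤ, ∀ P, gl P = ram F P * G (under F P) :=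
    ⟨_, fun _ => rfl⟩
  have hram : ∀ P : Place k L, (1 : ℤ) ≤ ram F P := fun P => by
    have := (ram_spec (F := F) P).1
    omega
  have hgl0 : ∀ P, 0 ≤ gl P := fun P => by
    rw [hgl]
    exact mul_nonneg (by positivity) (hG0 _)
  have hel0 : ∀ P, 0 ≤ el P := fun P => by
    rw [hel]
    have h1 := hram P
    have h2 : 0 ≤ (ram F P : ℤ) * Q (under F P) := mul_nonneg (by positivity) (hQ0 _)
    linarith
  have hpole : ∀ z : F, (∀ v, Ge v (-G v) z) → ∀ P : Place k L, Ge P (-gl P) (algebraMap F L z) := by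
    intro z hz P
    by_cases hz0 : z = 0
    · rw [hz0, map_zero]; exact Or.inl rfl
    · right
      have h1 := (hz (under F P)).resolve_left hz0
      rw [ord_under, hgl]
      have h2 := hram P
      nlinarith
  have hefin : {P | el P ≠ 0}.Finite := by simp only [hel]; exact hqfin
  have hgfin : {P | gl P ≠ 0}.Finite := by simp only [hgl]; exact hufin
  have hcoefz : ∀ p : MvPolynomial (Fin (n + 1)) F, (∀ u ∈ p.support, ∀ v, Ge v (-G v) (p.coeff u)) →
      ∀ u v, Ge v (-G v) (p.coeff u) := by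
    intro p hp u v
    by_cases hu : u ∈ p.support
    · exact hp u hu v
    · rw [notMem_support_iff.1 hu]; exact Or.inl rfl
  have hdat : Data k HL d D' el gl := by
    rw [hHL]
    refine Data.of_null hd (hH.map _) ?_ hel0 hgl0 ?_ ?_ ?_ N
      (fun l i => map (algebraMap F L) (R l i)) ?_ ?_
    · intro I J hI hJ
      rw [coeff_map, hD', hDd I hI]
      constructor
      · intro h
        subst h
        have := (hDb ⟨I, hI⟩ ⟨I, hJ⟩).1 rfl
        dsimp only at this
        rw [this, map_one]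
      · intro h
        have := (hDb ⟨I, hI⟩ ⟨J, hJ⟩).2 fun h' => h (congrArg Subtype.val h')
        dsimp only at this
        rw [this, map_zero]
    · intro P f hf I hI
      obtain ⟨δ, hδ⟩ := exists_locd P
      obtain ⟨h1, h2⟩ := hDl I P
      have h3 := h2 δ hδ 0 f hf
      have h4 := h1.mul (hδ.2.2 f hf)
      have h5 : D' I f = D' I (unif P) * δ f + (D' I f - D' I (unif P) * δ f) := by ring
      have h6 := hQle I hI (under F P)
      have h7 := hram P
      have h8 : (ram F P : ℤ) * q I (under F P) ≤ ram F P * Q (under F P) :=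
        mul_le_mul_of_nonneg_left h6 (by omega)
      rw [h5]
      refine Ge.add (h4.mono ?_) (h3.mono ?_)
      · rw [hel]; linarith
      · rw [hel]; linarith
    · intro P u
      rw [coeff_map]
      refine hpole _ (fun v => ?_) P
      exact hcoefz H (fun u hu v => hG v _ (Finset.mem_union_left _
        (Finset.mem_image.2 ⟨u, hu, rfl⟩))) u v
    · refine (hefin.union hgfin).subset fun P hP => ?_
      rcases hP with hP | hP
      · exact Or.inl hP
      · exact Or.inr hP
    · intro l
      have h1 := congrArg (map (algebraMap F L)) (hR l)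
      rw [map_pow, map_X, map_sum] at h1
      rw [h1]
      exact Finset.sum_congr rfl fun i _ => by rw [map_mul, pderiv_map]
    · intro P l i u
      rw [coeff_map]
      refine hpole _ (fun v => ?_) P
      exact hcoefz (R l i) (fun u hu v => hG v _ (Finset.mem_union_right _
        (Finset.mem_biUnion.2 ⟨(l, i), Finset.mem_univ _, Finset.mem_image.2 ⟨u, hu, rfl⟩⟩))) u v
  have hcomL : ∀ I J a, D' I (D' J a) = D' J (D' I a) := by
    intro I J a
    have h1 := zero_of_alg (F := F) (L := L) ⁅D' I, D' J⁆ (fun a => by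
      rw [Derivation.commutator_apply, hD', hD', hD', hD', hcom, sub_self]) a
    rw [Derivation.commutator_apply] at h1
    exact sub_eq_zero.1 h1
  have hes : ∑ᶠ P, el P ≤ canDeg k L + C1 * Module.finrank F L := by
    have h1 : el = fun P => ((ram F P : ℤ) - 1) + ram F P * Q (under F P) := funext hel
    rw [h1]
    exact hqsum
  have hgs : ∑ᶠ P, gl P ≤ C3 * Module.finrank F L := by
    have h1 : gl = fun P => (ram F P : ℤ) * G (under F P) := funext hgl
    rw [h1]
    exact husum
  have hCC : Pool.Agent.Y735.CC n el gl = (n + 1) * (∑ᶠ P, el P + ∑ᶠ P, gl P) + ∑ᶠ P, gl P := by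
    unfold Pool.Agent.Y735.CC
    have hf1 : {P | ((n : ℤ) + 1) * (el P + gl P) ≠ 0}.Finite := by
      refine (hefin.union hgfin).subset fun P hP => ?_
      by_contra hcon
      simp only [Set.mem_union, Set.mem_ofPred_eq, not_or, not_not] at hcon
      apply hP
      rw [hcon.1, hcon.2]
      ring
    rw [finsum_add_distrib hf1 hgfin, ← mul_finsum, finsum_add_distrib hefin hgfin]
  have hn0 : (0 : ℤ) ≤ n + 1 := by positivity
  have hn1 : (0 : ℤ) ≤ n + 2 := by positivity
  have hC10 : (0 : ℤ) ≤ (n + 1) * (C1 : ℤ) * Module.finrank F L := by positivity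
  have hC30 : (0 : ℤ) ≤ (n + 1) * (C3 : ℤ) * Module.finrank F L := by positivity
  refine ⟨D', el, gl, hD', hHL ▸ hdat, hcomL, ?_, ?_⟩
  · rw [hCC]
    have h2 := mul_le_mul_of_nonneg_left hes hn0
    have h3 := mul_le_mul_of_nonneg_left hgs hn1
    push_cast
    linarith
  · push_cast
    linarith

end Pool.Agent.Helper449_QS
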