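import Pool.Agent.Y735.S.Ultra

/-!
Transport of the vectors and minors attached to a point along homomorphisms compatible with the
derivations.
-/

set_option autoImplicit false

open MvPolynomial Pool.Agent.Y735.S

namespace Pool.Agent.Helper449_QS

open Pool.Agent.Y735

variable {L M : Type} [Field L] [Field M] (φ : L →+* M)

theorem eval_map_hom {n : ℕ} (G : MvPolynomial (Fin (n + 1)) L) (x : Fin (n + 1) → L) :
    eval (fun l => φ (x l)) (map φ G) = φ (eval x G) := eval_hom φ G x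

theorem vec_hom {n : ℕ} {D : (Fin (n + 1) →₀ ℕ) → Derivation ℤ L L}
    {E : (Fin (n + 1) →₀ ℕ) → Derivation ℤ M M} (hDE : ∀ I a, E I (φ a) = φ (D I a))
    (x : Fin (n + 1) → L) (G : MvPolynomial (Fin (n + 1)) L) (l : Fin (n + 1)) :
    vec E (fun l => φ (x l)) (map φ G) l = φ (vec D x G l) := by
  induction G using MvPolynomial.induction_on' with
  | monomial u a =>
    rw [MvPolynomial.map_monomial, vec_apply, DD_monomial, vec_apply, DD_monomial]
    change φ a * E u (φ (x l)) = φ (a * D u (x l))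
    rw [hDE, map_mul]
  | add p q hp hq =>
    rw [map_add, map_add, Pi.add_apply, hp, hq, map_add, Pi.add_apply, map_add]

theorem single_hom {n : ℕ} (j l : Fin (n + 1)) :
    (Pi.single j 1 : Fin (n + 1) → M) l = φ ((Pi.single j 1 : Fin (n + 1) → L) l) := by
  by_cases h : l = j
  · rw [h, Pi.single_eq_same, Pi.single_eq_same, map_one]
  · rw [Pi.single_eq_of_ne h, Pi.single_eq_of_ne h, map_zero]

theorem wv_hom {n : ℕ} {D : (Fin (n + 1) →₀ ℕ) → Derivation ℤ L L}
    {E : (Fin (n + 1) →₀ ℕ) → Derivation ℤ M M} (hDE : ∀ I a, E I (φ a) = φ (D I a))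
    (F : MvPolynomial (Fin (n + 1)) L) (x : Fin (n + 1) → L)
    (pq : Fin (n + 1) × Fin (n + 1)) (l : Fin (n + 1)) :
    wv (map φ F) E (fun l => φ (x l)) pq l = φ (wv F D x pq l) := by
  unfold wv
  have h1 : X pq.2 * pderiv pq.1 (map φ F) = map φ (X pq.2 * pderiv pq.1 F) := by
    rw [map_mul, map_X, pderiv_map]
  rw [h1, Pi.add_apply, Pi.smul_apply, smul_eq_mul, vec_hom φ hDE, single_hom φ, Pi.add_apply,
    Pi.smul_apply, smul_eq_mul, φ.map_add, φ.map_mul]

theorem vl_hom (e x u v : Fin (3 + 1) → L) :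
    vl (fun l => φ (e l)) (fun l => φ (x l)) (fun l => φ (u l)) (fun l => φ (v l)) =
      φ (vl e x u v) := by
  unfold vl
  rw [φ.map_det]
  congr 1
  ext i l
  fin_cases i <;> rfl

theorem Dj_hom {D : (Fin (3 + 1) →₀ ℕ) → Derivation ℤ L L}
    {E : (Fin (3 + 1) →₀ ℕ) → Derivation ℤ M M} (hDE : ∀ I a, E I (φ a) = φ (D I a))
    (x : Fin (3 + 1) → L) (j : Fin (3 + 1)) (Q : MvPolynomial (Fin (3 + 1)) L)
    (a b c : Fin (3 + 1)) :
    Dj E (fun l => φ (x l)) j (map φ Q) a b c = φ (Dj D x j Q a b c) := by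
  have hs : (Pi.single j 1 : Fin (3 + 1) → M) =
      fun l => φ ((Pi.single j 1 : Fin (3 + 1) → L) l) := funext fun l => single_hom φ j l
  have hv : ∀ i, vec E (fun l => φ (x l)) (map φ Q * X i) =
      fun l => φ (vec D x (Q * X i) l) := by
    intro i
    funext l
    have h1 : map φ Q * X i = map φ (Q * X i) := by rw [map_mul, map_X]
    rw [h1, vec_hom φ hDE]
  unfold Dj
  rw [hs, hv, hv, hv]
  have h := fun p q : Fin (3 + 1) => vl_hom φ (Pi.single j 1 : Fin (3 + 1) → L) x
    (vec D x (Q * X p)) (vec D x (Q * X q))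
  rw [h, h, h]
  simp only [map_add, map_sub, map_mul]

end Pool.Agent.Helper449_QS
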