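import Pool.Agent.Helper449_QS.Hom
import Pool.Agent.Helper449_QS.Bdd

/-!
Points of unbounded relative height over growing extensions, in the ultrapower.
-/

set_option autoImplicit false

open MvPolynomial FF Pool.Agent.W603.LV Pool.Agent.W603.PV Pool.Agent.W602.RG Pool.Agent.TH145.GH
  Pool.Agent.TH145.MF

namespace Pool.Agent.Helper449_QS

open Pool.Agent.Y735 Pool.Agent.Y735.S

/-- The remaining points have bounded relative height. -/
theorem ultraU {κ F Fb : Type} [Field κ] [IsAlgClosed κ] [CharZero κ] [Field F] [Field Fb]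
    [Algebra κ F] [IsFF κ F] [Algebra F Fb]
    {L : ℕ → Type} [∀ m, Field (L m)] [∀ m, Algebra κ (L m)] [∀ m, Algebra F (L m)]
    [∀ m, IsScalarTower κ F (L m)] [∀ m, FiniteDimensional F (L m)] [∀ m, IsFF κ (L m)]
    {ι : ∀ m, L m →+* Fb} (hι : ∀ m a, ι m (algebraMap F (L m) a) = algebraMap F Fb a)
    {T : ℕ → ℤ} (hT : ∀ m, (Module.finrank F (L m) : ℤ) ≤ T m)
    {G : MvPolynomial (Fin (3 + 1)) F}
    {Db : (Fin (3 + 1) →₀ ℕ) → Derivation ℤ Fb Fb}
    {D : ∀ m, (Fin (3 + 1) →₀ ℕ) → Derivation ℤ (L m) (L m)}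
    (hD : ∀ m I a, Db I (ι m a) = ι m (D m I a))
    {e g : ∀ m, Place κ (L m) → ℤ}
    (hdat : ∀ m, Data κ (map (algebraMap F (L m)) G) 5 (D m) (e m) (g m))
    {C : ℤ} (hCC : ∀ m, CC 3 (e m) (g m) ≤ C * T m)
    {N : ℕ} {Q : Fin (3 + 1) → Fin (3 + 1) → MvPolynomial (Fin (3 + 1)) F}
    (hnull : ∀ l, X l ^ N = ∑ i, Q l i * pderiv i G) (hgen : GenF 5 G)
    (hom : G.IsHomogeneous 5) {l0 : Fin (3 + 1)}
    (x : ∀ m, Fin (3 + 1) → L m) (hx : ∀ m, x m l0 = 1)
    (hxF : ∀ m, eval (x m) (map (algebraMap F (L m)) G) = 0)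
    (hR : ∀ m, Rest κ (map (algebraMap F (L m)) G) (D m) (x m)) (l : Fin (3 + 1)) :
    ∃ B : ℤ, ∀ᶠ m in (Filter.hyperfilter ℕ : Filter ℕ), hgt κ (x m l) ≤ B * T m := by
  classical
  have hT0 : ∀ m, 0 ≤ T m := fun m => (by positivity : (0 : ℤ) ≤ _).trans (hT m)
  have hczF : CharZero F := charZero_of_injective_algebraMap (algebraMap κ F).injective
  have hczFb : CharZero Fb := charZero_of_injective_algebraMap (algebraMap F Fb).injective
  have hczL : ∀ m, CharZero (L m) := fun m =>
    charZero_of_injective_algebraMap (algebraMap κ (L m)).injective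
  have hczOm : CharZero (Om Fb) :=
    charZero_of_injective_ringHom (cst Fb).injective
  obtain ⟨E, hE⟩ : ∃ E : Subfield (Om Fb), E = BU κ ι T := ⟨_, rfl⟩
  obtain ⟨j', hj'⟩ : ∃ j' : Om Fb →+* AlgebraicClosure (Om Fb),
    j' = algebraMap (Om Fb) (AlgebraicClosure (Om Fb)) := ⟨_, rfl⟩
  have hczK : CharZero (AlgebraicClosure (Om Fb)) :=
    charZero_of_injective_algebraMap (algebraMap (Om Fb) (AlgebraicClosure (Om Fb))).injective
  have hac : IsAlgClosed (algebraicClosure E (AlgebraicClosure (Om Fb))) :=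
    (algebraicClosure.isAlgClosure E (AlgebraicClosure (Om Fb))).isAlgClosed
  have hcz1 : CharZero (algebraicClosure E (AlgebraicClosure (Om Fb))) := by
    constructor
    intro a b hab
    have h1 := congrArg (fun z : algebraicClosure E (AlgebraicClosure (Om Fb)) =>
      (z : AlgebraicClosure (Om Fb))) hab
    simpa using h1
  have hmem : ∀ z ∈ E, j' z ∈ algebraicClosure E (AlgebraicClosure (Om Fb)) := by
    intro z hz
    rw [mem_algebraicClosure_iff]
    have h1 : j' z = algebraMap E (AlgebraicClosure (Om Fb)) ⟨z, hz⟩ := by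
      rw [IsScalarTower.algebraMap_apply E (Om Fb) (AlgebraicClosure (Om Fb)), hj']
      rfl
    rw [h1]
    exact isAlgebraic_algebraMap _
  have hmem' : ∀ z, j' z ∈ algebraicClosure E (AlgebraicClosure (Om Fb)) → IsAlgebraic E z := by
    intro z hz
    rw [mem_algebraicClosure_iff, hj'] at hz
    exact (isAlgebraic_algebraMap_iff (algebraMap (Om Fb) (AlgebraicClosure (Om Fb))).injective).1 hz
  have hcst : ∀ a : F, cst Fb (algebraMap F Fb a) ∈ E := by
    intro a
    have h1 : cst Fb (algebraMap F Fb a) = Om.mk fun m => ι m (algebraMap F (L m) a) := by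
      rw [cst_apply]
      congr 1
      funext m
      rw [hι]
    rw [h1, hE]
    refine BU.mem hT0 (B := hgt κ a) (Filter.Eventually.of_forall fun m => ?_)
    rw [hgt_algebraMap, mul_comm]
    exact mul_le_mul_of_nonneg_left (hT m) (hgt_nonneg a)
  let φ : F →+* algebraicClosure E (AlgebraicClosure (Om Fb)) :=
    { toFun := fun a => ⟨j' (cst Fb (algebraMap F Fb a)), hmem _ (hcst a)⟩
      map_one' := Subtype.ext (by
        change j' (cst Fb (algebraMap F Fb 1)) = 1
        rw [map_one, map_one, map_one])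
      map_mul' := fun a b => Subtype.ext (by
        change j' (cst Fb (algebraMap F Fb (a * b))) =
          j' (cst Fb (algebraMap F Fb a)) * j' (cst Fb (algebraMap F Fb b))
        rw [map_mul, map_mul, map_mul])
      map_zero' := Subtype.ext (by
        change j' (cst Fb (algebraMap F Fb 0)) = 0
        rw [map_zero, map_zero, map_zero])
      map_add' := fun a b => Subtype.ext (by
        change j' (cst Fb (algebraMap F Fb (a + b))) =
          j' (cst Fb (algebraMap F Fb a)) + j' (cst Fb (algebraMap F Fb b))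
        rw [map_add, map_add, map_add]) }
  obtain ⟨GF, hGF⟩ : ∃ GF, GF = map (algebraMap F Fb) G := ⟨_, rfl⟩
  have hGL : ∀ m, GF = map (ι m) (map (algebraMap F (L m)) G) := by
    intro m
    have h1 : (ι m).comp (algebraMap F (L m)) = algebraMap F Fb := RingHom.ext fun a => hι m a
    rw [hGF, map_map, h1]
  have hFF : map j' (map (cst Fb) GF) = map (algebraMap (algebraicClosure E
      (AlgebraicClosure (Om Fb))) (AlgebraicClosure (Om Fb))) (map φ G) := by
    rw [hGF, map_map, map_map, map_map]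
    congr 1
  -- the limit point
  obtain ⟨y, hy⟩ : ∃ y : ℕ → Fin (3 + 1) → Fb, y = fun m l => ι m (x m l) := ⟨_, rfl⟩
  obtain ⟨z, hz⟩ : ∃ z : Fin (3 + 1) → Om Fb, z = fun l => Om.mk fun m => y m l := ⟨_, rfl⟩
  have hyx : ∀ m, y m l0 = 1 := fun m => by
    rw [hy]
    dsimp only
    rw [hx, map_one]
  have hyF : ∀ m, eval (y m) GF = 0 := fun m => by
    rw [hGL m, hy]
    change eval (fun l => ι m (x m l)) _ = 0
    rw [eval_map_hom, hxF, map_zero]
  have hz0 : z ≠ 0 := by
    intro h0
    have h1 := congrFun h0 l0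
    rw [hz] at h1
    simp only [hyx] at h1
    exact one_ne_zero h1
  obtain ⟨j, hj⟩ := smooth_map ((cst Fb).comp (algebraMap F Fb)) hnull z hz0
  rw [← map_map, ← hGF] at hj
  have hj1 : ∀ᶠ m in (Filter.hyperfilter ℕ : Filter ℕ),
      eval (x m) (pderiv j (map (algebraMap F (L m)) G)) ≠ 0 := by
    rw [pderiv_map, hz, eval_cst] at hj
    rw [Ultrafilter.eventually_not]
    intro h0
    apply hj
    refine Om.mk_eq.2 (h0.mono fun m hm => ?_)
    rw [hGL m, pderiv_map, hy]
    change eval (fun l => ι m (x m l)) _ = 0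
    rw [eval_map_hom, hm, map_zero]
  have hmon : ∀ I J : Fin (3 + 1) →₀ ℕ, (monomial I 1 + monomial J 1 :
      MvPolynomial (Fin (3 + 1)) (Om Fb)) = map (cst Fb) (monomial I 1 + monomial J 1) := by
    intro I J
    rw [map_add, MvPolynomial.map_monomial, MvPolynomial.map_monomial, (cst Fb).map_one]
  have hmonL : ∀ m (I J : Fin (3 + 1) →₀ ℕ), (monomial I 1 + monomial J 1 :
      MvPolynomial (Fin (3 + 1)) Fb) = map (ι m) (monomial I 1 + monomial J 1) := by
    intro m I J
    rw [map_add, MvPolynomial.map_monomial, MvPolynomial.map_monomial, (ι m).map_one]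
  have hDj : ∀ (I J : Fin (3 + 1) →₀ ℕ) (a b c : Fin (3 + 1)),
      Dj (fun I => hat (Db I)) z j (monomial I 1 + monomial J 1) a b c =
        Om.mk fun m => ι m (Dj (D m) (x m) j (monomial I 1 + monomial J 1) a b c) := by
    intro I J a b c
    rw [hmon, hz, Dj_mk]
    congr 1
    funext m
    rw [hmonL m, hy]
    exact Dj_hom (ι m) (hD m) (x m) j _ a b c
  have hCS : ∀ m (I J : Fin (3 + 1) →₀ ℕ), I.degree = 4 → J.degree = 4 →
      (monomial I 1 + monomial J 1 : MvPolynomial (Fin (3 + 1)) (L m)) ∈ CS κ (L m) 3 4 :=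
    fun m I J hI hJ => add_mem (monomial_mem_CS hI) (monomial_mem_CS hJ)
  have hfd := finite_deg 3 4
  have key := level j' hFF (hom.map φ) (fun p => (hgen.map φ).no_lines (hom.map φ) p)
    (fun ψ hψ => (hgen.map φ).no_conics (hom.map φ) ψ hψ) (fun p hp => smooth_map φ hnull p hp)
    (D := fun I => hat (Db I)) (x := z) (l0 := l0) (by
      rw [hz]
      simp only [hyx]
      rfl) (by
      rw [hz, eval_cst]
      simp only [hyF]
      rfl) (fun pq => by
      choose a ha using fun m => (hR m).1 pq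
      refine ⟨Om.mk fun m => ι m (a m), ?_⟩
      funext l
      rw [hz, wv_mk, Pi.smul_apply, smul_eq_mul, Om.mk_mul]
      congr 1
      funext m
      have h1 := wv_hom (ι m) (hD m) (map (algebraMap F (L m)) G) (x m) pq l
      rw [← hGL m] at h1
      rw [hy]
      change wv GF Db (fun l => ι m (x m l)) pq l = _
      rw [h1, ha, Pi.smul_apply, smul_eq_mul, map_mul]) (j := j) hj (by
      by_contra hcon
      push Not at hcon
      have h1 : ∀ t : {I : Fin (3 + 1) →₀ ℕ // I.degree = 4} ×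
          {I : Fin (3 + 1) →₀ ℕ // I.degree = 4} × Fin (3 + 1) × Fin (3 + 1) × Fin (3 + 1),
          ∀ᶠ m in (Filter.hyperfilter ℕ : Filter ℕ),
          Dj (D m) (x m) j (monomial t.1.1 1 + monomial t.2.1.1 1) t.2.2.1 t.2.2.2.1 t.2.2.2.2
            = 0 := by
        rintro ⟨I, J, a, b, c⟩
        have h2 := hcon I.1 J.1 I.2 J.2 a b c
        rw [hDj] at h2
        exact (Om.mk_eq.1 h2).mono fun m hm => (ι m).injective (by rw [hm, map_zero])
      obtain ⟨m, h2, h3⟩ := ((Filter.eventually_all.2 h1).and hj1).exists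
      obtain ⟨-, R, hRR, a, b, c, hne⟩ := hR m
      exact hne j h3 (Dj_zero (fun I J hI hJ a b c => h2 (⟨I, hI⟩, ⟨J, hJ⟩, a, b, c)) hRR.1 a b c))
    (fun I J I' J' hI hJ hI' hJ' a b c a' b' c' hne => by
      rw [hDj] at hne
      rw [hDj, hDj, Om.mk_div]
      have h0 : (fun m => ι m (Dj (D m) (x m) j (monomial I 1 + monomial J 1) a b c) /
          ι m (Dj (D m) (x m) j (monomial I' 1 + monomial J' 1) a' b' c')) =
          fun m => ι m (Dj (D m) (x m) j (monomial I 1 + monomial J 1) a b c /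
            Dj (D m) (x m) j (monomial I' 1 + monomial J' 1) a' b' c') := by
        funext m
        rw [map_div₀]
      rw [h0]
      refine ⟨⟨_, hmem _ (hE ▸ BU.mem (k := κ) hT0 (B := C) ?_)⟩, rfl⟩
      have h1 : ∀ᶠ m in (Filter.hyperfilter ℕ : Filter ℕ),
          Dj (D m) (x m) j (monomial I' 1 + monomial J' 1) a' b' c' ≠ 0 := by
        rw [Ultrafilter.eventually_not]
        intro h0
        apply hne
        exact Om.mk_eq.2 (h0.mono fun m hm => by rw [hm, map_zero])
      filter_upwards [hj1, h1] with m h2 h3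
      exact (ratio_Dj (hdat m) (hxF m) h2 (hCS m I J hI hJ) (hCS m I' J' hI' hJ') a b c a' b' c'
        h3).trans (hCC m)) l
  obtain ⟨w, hw⟩ := key
  have h1 : j' (z l) ∈ algebraicClosure E (AlgebraicClosure (Om Fb)) := by
    rw [← hw]
    exact w.2
  have h2 := hmem' _ h1
  rw [hz, hy, hE] at h2
  exact BU.alg (v := fun m => x m l) h2

end Pool.Agent.Helper449_QS
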