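import Mathlib

/-!
Derivations on algebraic extensions are determined by their values on the base field.
-/

set_option autoImplicit false

namespace Pool.Agent.Helper449_QS

/-- Two derivations compatible on the base field are compatible. -/
theorem der_hom_unique {F L Fb : Type} [Field F] [Field L] [Field Fb] [Algebra F L]
    [CharZero F] [Algebra.IsAlgebraic F L] (ι : L →+* Fb) (E : Derivation ℤ Fb Fb)
    (D : Derivation ℤ L L)
    (h : ∀ a : F, E (ι (algebraMap F L a)) = ι (D (algebraMap F L a))) (x : L) :
    E (ι x) = ι (D x) := by
  let _ : Algebra L Fb := ι.toAlgebra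
  let _ : Algebra F Fb := (ι.comp (algebraMap F L)).toAlgebra
  have _ : IsScalarTower F L Fb := IsScalarTower.of_algebraMap_eq fun _ => rfl
  let δ : Derivation F L Fb :=
    { toFun := fun x => E (ι x) - ι (D x)
      map_add' := fun a b => by rw [map_add, map_add, map_add, map_add]; ring
      map_smul' := fun a b => by
        have h1 : a • b = algebraMap F L a * b := Algebra.smul_def a b
        have h2 : a • (E (ι b) - ι (D b)) = ι (algebraMap F L a) * (E (ι b) - ι (D b)) :=
          Algebra.smul_def a _
        rw [RingHom.id_apply, h1, h2, map_mul, E.leibniz, D.leibniz, h]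
        simp only [smul_eq_mul, map_add, map_mul]
        ring
      map_one_eq_zero' := by
        change E (ι 1) - ι (D 1) = 0
        rw [map_one, E.map_one_eq_zero, D.map_one_eq_zero, map_zero, sub_zero]
      leibniz' := fun a b => by
        change E (ι (a * b)) - ι (D (a * b)) = a • (E (ι b) - ι (D b)) + b • (E (ι a) - ι (D a))
        have h2 : ∀ (a : L) (z : Fb), a • z = ι a * z := fun a z => Algebra.smul_def a z
        rw [h2, h2, map_mul, E.leibniz, D.leibniz]
        simp only [smul_eq_mul, map_add, map_mul]
        ring }
  have hsep : Algebra.IsSeparable F L := inferInstance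
  have h3 : Algebra.FormallyUnramified F L := Algebra.FormallyUnramified.of_isSeparable F L
  have h4 : Subsingleton (Ω[L⁄F]) := inferInstance
  have h5 : δ x = δ.liftKaehlerDifferential (KaehlerDifferential.D F L x) :=
    (δ.liftKaehlerDifferential_comp_D x).symm
  have h6 : δ x = 0 := by
    rw [h5, Subsingleton.elim (KaehlerDifferential.D F L x) 0, map_zero]
  exact sub_eq_zero.1 h6

end Pool.Agent.Helper449_QS
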