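import Pool.Agent.Helper449_QS.Data
import Pool.Agent.Helper449_QS.Ultra
import Pool.Agent.Helper449_QS.Uniq

/-!
Vojta's height inequality for all algebraic points on generic surfaces.
-/

set_option autoImplicit false

open MvPolynomial FF Pool.Agent.W603.LV Pool.Agent.W603.PV Pool.Agent.TH145.GH
  Pool.Agent.TH145.MG Pool.Agent.W602.GT

namespace Pool.Agent.Helper449_QS

open Pool.Agent.TH812.GV Pool.Agent.TH812.GV2 Pool.Agent.Y735 Pool.Agent.Y735.V
  Pool.Agent.Y735.S

/-- A point of large relative height. -/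
structure Ctr (k : Type) {F : Type} [Field k] [IsAlgClosed k] [CharZero k] [Field F] [Algebra k F]
    [IsFF k F] (H : MvPolynomial (Fin (3 + 1)) F) (D : (Fin (3 + 1) →₀ ℕ) → Derivation ℤ F F)
    (C c0 : ℤ) (l0 : Fin (3 + 1)) (m : ℕ) where
  L : Type
  [fld : Field L]
  [algk : Algebra k L]
  [algF : Algebra F L]
  [tow : IsScalarTower k F L]
  [fin : FiniteDimensional F L]
  [iff : IsFF k L]
  hT : (Module.finrank F L : ℤ) ≤ canDeg k L + c0 * Module.finrank F L
  D' : (Fin (3 + 1) →₀ ℕ) → Derivation ℤ L L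
  e : Place k L → ℤ
  g : Place k L → ℤ
  hD : ∀ I a, D' I (algebraMap F L a) = algebraMap F L (D I a)
  hdat : Data k (map (algebraMap F L) H) 5 D' e g
  hCC : Pool.Agent.Y735.CC 3 e g ≤ C * (canDeg k L + c0 * Module.finrank F L)
  x : Fin (3 + 1) → L
  hx : x l0 = 1
  hxF : eval x (map (algebraMap F L) H) = 0
  hR : Rest k (map (algebraMap F L) H) D' x
  l : Fin (3 + 1)
  hl : m * (canDeg k L + c0 * Module.finrank F L) < hgt k (x l)

theorem no_ctr {k F : Type} [Field k] [IsAlgClosed k] [CharZero k] [Field F] [Algebra k F]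
    [IsFF k F] {H : MvPolynomial (Fin (3 + 1)) F} {D : (Fin (3 + 1) →₀ ℕ) → Derivation ℤ F F}
    {C c0 : ℤ} {l0 : Fin (3 + 1)} {N : ℕ}
    {Q : Fin (3 + 1) → Fin (3 + 1) → MvPolynomial (Fin (3 + 1)) F}
    (hnull : ∀ l, X l ^ N = ∑ i, Q l i * pderiv i H) (hgen : GenF 5 H)
    (hom : H.IsHomogeneous 5) (b : ∀ m, Ctr k H D C c0 l0 m) : False := by
  classical
  have hczF : CharZero F := charZero_of_injective_algebraMap (algebraMap k F).injective
  let L : ℕ → Type := fun m => (b m).L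
  let i1 : ∀ m, Field (L m) := fun m => (b m).fld
  let i2 : ∀ m, Algebra k (L m) := fun m => (b m).algk
  let i3 : ∀ m, Algebra F (L m) := fun m => (b m).algF
  have i4 : ∀ m, IsScalarTower k F (L m) := fun m => (b m).tow
  have i5 : ∀ m, FiniteDimensional F (L m) := fun m => (b m).fin
  have i6 : ∀ m, IsFF k (L m) := fun m => (b m).iff
  choose Db hDb using fun I => Pool.Agent.TH145.GF.exists_der_ext (Ω := AlgebraicClosure F) (D I)
  obtain ⟨ι, hι⟩ : ∃ ι : ∀ m, L m →+* AlgebraicClosure F,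
      ∀ m a, ι m (algebraMap F (L m) a) = algebraMap F (AlgebraicClosure F) a :=
    ⟨fun m => ((IsAlgClosed.lift : L m →ₐ[F] AlgebraicClosure F) : L m →+* AlgebraicClosure F),
      fun m a => (IsAlgClosed.lift : L m →ₐ[F] AlgebraicClosure F).commutes a⟩
  have hD : ∀ m I a, Db I (ι m a) = ι m ((b m).D' I a) := fun m I a =>
    der_hom_unique (F := F) (ι m) (Db I) ((b m).D' I) (fun c => by
      rw [hι, hDb, (b m).hD, hι]) a
  have key := ultraU (κ := k) (L := L) hι (T := fun m => canDeg k (L m) +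
    c0 * Module.finrank F (L m)) (fun m => (b m).hT) hD (fun m => (b m).hdat) (C := C)
    (fun m => (b m).hCC) hnull hgen hom (fun m => (b m).x) (fun m => (b m).hx)
    (fun m => (b m).hxF) (fun m => (b m).hR)
  choose B hB using key
  obtain ⟨B', hB'⟩ : ∃ B' : ℕ, ∀ l, B l ≤ B' := by
    refine ⟨∑ l, (B l).toNat, fun l => ?_⟩
    have h2 := Finset.single_le_sum (f := fun l => (B l).toNat) (fun _ _ => Nat.zero_le _)
      (Finset.mem_univ l)
    have h3 := Int.self_le_toNat (B l)
    have h4 : (((B l).toNat : ℕ) : ℤ) ≤ ((∑ l, (B l).toNat : ℕ) : ℤ) := by exact_mod_cast h2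
    linarith
  have h2 : ∀ᶠ m in (Filter.hyperfilter ℕ : Filter ℕ), B' ≤ m := by
    have h3 : ∀ᶠ m in (Filter.cofinite : Filter ℕ), B' ≤ m := by
      rw [Nat.cofinite_eq_atTop]
      exact Filter.eventually_ge_atTop B'
    exact Filter.hyperfilter_le_cofinite h3
  obtain ⟨m, h3, h4⟩ := ((Filter.eventually_all.2 hB).and h2).exists
  have h5 := (b m).hl
  have h6 := h3 (b m).l
  have h7 := hB' (b m).l
  have h8 : (B' : ℤ) ≤ m := by exact_mod_cast h4
  have h9 : (0 : ℤ) ≤ canDeg k (L m) + c0 * Module.finrank F (L m) :=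
    (by positivity : (0 : ℤ) ≤ Module.finrank F (L m)).trans (b m).hT
  have h10 : B (b m).l * (canDeg k (L m) + c0 * Module.finrank F (L m)) ≤
      m * (canDeg k (L m) + c0 * Module.finrank F (L m)) :=
    mul_le_mul_of_nonneg_right (h7.trans h8) h9
  exact absurd (lt_of_lt_of_le h5 (h6.trans h10)) (lt_irrefl _)

/-- The height inequality for all algebraic points on generic quintic surfaces. -/
theorem vojta_quintic {k0 k F0 F : Type} [Field k0] [Field k] [Field F0] [Field F] [IsAlgClosed k]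
    [CharZero k] [Algebra k0 k] [Algebra k F] [Algebra k0 F] [IsScalarTower k0 k F]
    [Algebra k0 F0] [Algebra F0 F] [IsScalarTower k0 F0 F] [IsFF k F]
    (hfg : ∃ S : Finset F0, IntermediateField.adjoin k0 (S : Set F0) = ⊤)
    {H : MvPolynomial (Fin (3 + 1)) F} (hH : H.IsHomogeneous 5)
    (hgen : AlgebraicIndependent F0 fun I : {I : Fin (3 + 1) →₀ ℕ // I.degree = 5} =>
      H.coeff I.1) :
    ∃ A B : ℕ, ∀ (L : Type) [Field L] [Algebra k L] [Algebra F L]
      [IsScalarTower k F L] [FiniteDimensional F L] (x : Fin (3 + 1) → L), x ≠ 0 →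
      aeval x H = 0 → pht k x ≤ A * canDeg k L + B * Module.finrank F L := by
  classical
  have hF : CharZero F := charZero_of_injective_algebraMap (algebraMap k F).injective
  have hG5 : GenF 5 H := GenF.of_base hgen
  obtain ⟨D, C, N, R, hnull, hdata⟩ := exists_dataU (k0 := k0) (k := k) hfg (by norm_num) hH hgen
  obtain ⟨t, ht⟩ := IsFF.exists_transcendental (k := k) (K := F)
  obtain ⟨c0, hc0⟩ : ∃ c0 : ℕ, (c0 : ℤ) = 2 * hgt k t + 1 :=
    ⟨(2 * hgt k t + 1).toNat, Int.toNat_of_nonneg (by have := hgt_nonneg (k := k) t; omega)⟩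
  have hTL : ∀ (L : Type) [Field L] [Algebra k L] [Algebra F L] [IsScalarTower k F L]
      [FiniteDimensional F L],
      (Module.finrank F L : ℤ) ≤ canDeg k L + c0 * Module.finrank F L := by
    intro L _ _ _ _ _
    have hL : IsFF k L := isFF_of_finite (F := F)
    have h3 := canDeg_ge (k := k) (K := L) (t := algebraMap F L t)
      ((transcendental_algebraMap_iff (algebraMap F L).injective).2 ht)
    rw [hgt_algebraMap] at h3
    rw [hc0]
    linarith
  -- the remaining points
  have hrest : ∀ l0 : Fin (3 + 1), ∃ m : ℕ, ¬ Nonempty (Ctr k H D (C + 4) c0 l0 m) := by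
    intro l0
    by_contra hcon
    have h1 : ∀ m, Nonempty (Ctr k H D (C + 4) c0 l0 m) := fun m => by
      by_contra h2
      exact hcon ⟨m, h2⟩
    exact no_ctr hnull hG5 hH fun m => (h1 m).some
  choose M hM using hrest
  obtain ⟨M', hM'⟩ : ∃ M' : ℕ, ∀ l, M l ≤ M' :=
    ⟨∑ l, M l, fun l => Finset.single_le_sum (f := M) (fun _ _ => Nat.zero_le _)
      (Finset.mem_univ l)⟩
  -- the constant
  obtain ⟨A, hA⟩ : ∃ A : ℕ, A = 6 * (C + 4) + 2 * C + 4 * M' := ⟨_, rfl⟩
  refine ⟨A, A * c0, fun L _ _ _ _ _ x hx hxH => ?_⟩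
  have hL : IsFF k L := isFF_of_finite (F := F)
  have hLz : CharZero L := charZero_of_injective_algebraMap (algebraMap k L).injective
  obtain ⟨D', e, g, hD', hdat, hc, hCC, hgs⟩ := hdata L
  obtain ⟨G, hG⟩ : ∃ G, G = map (algebraMap F L) H := ⟨_, rfl⟩
  obtain ⟨T, hT⟩ : ∃ T : ℤ, T = canDeg k L + c0 * Module.finrank F L := ⟨_, rfl⟩
  have hT1 : (Module.finrank F L : ℤ) ≤ T := hT ▸ hTL L
  have hT0 : 0 ≤ T := (by positivity : (0 : ℤ) ≤ Module.finrank F L).trans hT1
  have hc0' : (1 : ℤ) ≤ c0 := by have := hgt_nonneg (k := k) t; omega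
  have hcT : canDeg k L ≤ T := by
    rw [hT]
    have : (0 : ℤ) ≤ c0 * Module.finrank F L := by positivity
    linarith
  have hgoal : (A : ℤ) * canDeg k L + (A * c0 : ℕ) * Module.finrank F L = A * T := by
    rw [hT]; push_cast; ring
  rw [hgoal]
  have hCC' : Pool.Agent.Y735.CC 3 e g ≤ ((C + 4 : ℕ) : ℤ) * T := by
    push_cast at hCC ⊢
    have h1 : (C : ℤ) * Module.finrank F L ≤ C * T :=
      mul_le_mul_of_nonneg_left hT1 (by positivity)
    linarith
  have hgs' : ∑ᶠ P, g P ≤ C * T :=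
    hgs.trans (mul_le_mul_of_nonneg_left hT1 (by positivity))
  have hMT : (0 : ℤ) ≤ M' * T := mul_nonneg (by positivity) hT0
  have hCT : (0 : ℤ) ≤ C * T := mul_nonneg (by positivity) hT0
  obtain ⟨l0, hl0⟩ := Function.ne_iff.1 hx
  have hl0' : x l0 ≠ 0 := hl0
  obtain ⟨x', hx'⟩ : ∃ x' : Fin (3 + 1) → L, x' = (x l0)⁻¹ • x := ⟨_, rfl⟩
  have hx'l : x' l0 = 1 := by
    rw [hx', Pi.smul_apply, smul_eq_mul, inv_mul_cancel₀ hl0']
  have hx'0 : x' ≠ 0 := by
    intro h0
    rw [h0] at hx'l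
    exact zero_ne_one hx'l
  have hxG : eval x (map (algebraMap F L) H) = 0 := by
    rw [eval_map, ← aeval_def]
    exact hxH
  have hx'F : eval x' (map (algebraMap F L) H) = 0 := by
    rw [hx', eval_smul_hom hdat.hom, hxG, mul_zero]
  have hpht : pht k x = pht k x' := by
    rw [hx']
    exact (pht_scale ⟨l0, hl0'⟩ (inv_ne_zero hl0')).symm
  rw [hpht, hA]
  push_cast
  rcases Pool.Agent.Y735.S.ineq5 hdat hc hx'F hx'0 with h1 | h1 | h1
  · exact absurd h1 ((hG5.map (algebraMap F L)).no_lines hdat.hom x')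
  · refine h1.trans ?_
    push_cast at hCC'
    nlinarith
  · have h2 := pht_le (k := k) x' (l := l0) (by rw [hx'l]; exact one_ne_zero)
    refine h2.trans ?_
    have h3 : ∑ j, hgt k (x' j / x' l0) ≤ ∑ _j : Fin (3 + 1), (M' : ℤ) * T := by
      refine Finset.sum_le_sum fun j _ => ?_
      rw [hx'l, div_one]
      by_contra hcon
      push Not at hcon
      refine hM l0 ⟨⟨L, hTL L, D', e, g, hD', hdat, hT ▸ hCC', x', hx'l, hx'F, h1, j, ?_⟩⟩
      rw [← hT]
      refine lt_of_le_of_lt (mul_le_mul_of_nonneg_right ?_ hT0) hcon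
      exact_mod_cast hM' l0
    refine h3.trans ?_
    rw [Finset.sum_const, Finset.card_univ, Fintype.card_fin, nsmul_eq_mul]
    push_cast
    nlinarith

/-- The height inequality for all algebraic points on generic surfaces of degree at least `5`. -/
theorem vojta_surf {k0 k F0 F : Type} [Field k0] [Field k] [Field F0] [Field F] [IsAlgClosed k]
    [CharZero k] [Algebra k0 k] [Algebra k F] [Algebra k0 F] [IsScalarTower k0 k F]
    [Algebra k0 F0] [Algebra F0 F] [IsScalarTower k0 F0 F] [IsFF k F]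
    (hfg : ∃ S : Finset F0, IntermediateField.adjoin k0 (S : Set F0) = ⊤) {d : ℕ} (hd : 5 ≤ d)
    {H : MvPolynomial (Fin (3 + 1)) F} (hH : H.IsHomogeneous d)
    (hgen : AlgebraicIndependent F0 fun I : {I : Fin (3 + 1) →₀ ℕ // I.degree = d} =>
      H.coeff I.1) :
    ∃ A B : ℕ, ∀ (L : Type) [Field L] [Algebra k L] [Algebra F L]
      [IsScalarTower k F L] [FiniteDimensional F L] (x : Fin (3 + 1) → L), x ≠ 0 →
      aeval x H = 0 → pht k x ≤ A * canDeg k L + B * Module.finrank F L := by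
  rcases Nat.lt_or_ge d 6 with hd6 | hd6
  · obtain rfl : d = 5 := by omega
    exact vojta_quintic (k0 := k0) hfg hH hgen
  · have hF : CharZero F := charZero_of_injective_algebraMap (algebraMap k F).injective
    obtain ⟨C, hC⟩ := vojta_L (k0 := k0) (k := k) hfg (n := 3) (by norm_num) (by omega) hH hgen
    refine ⟨(d + 1) * (3 + 1), C, fun L _ _ _ _ _ x hx hxH => ?_⟩
    have hLz : CharZero L := charZero_of_injective_algebraMap (algebraMap k L).injective
    have hgenL : AlgebraicIndependent ℚ fun I : {I : Fin (3 + 1) →₀ ℕ // I.degree = d} =>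
        (map (algebraMap F L) H).coeff I.1 := ((GenF.of_base hgen).map _).rat
    have h1 := (hC L x hx hxH).resolve_left
      (Pool.Agent.Y735.no_lines (k := ℚ) (by omega) (hH.map _) hgenL x)
    push_cast
    push_cast at h1
    exact h1

end Pool.Agent.Helper449_QS
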